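import Pool.Agent.Lib.MP_887aa5_nt.Fin

set_option autoImplicit false

namespace Pool.Agent.Results.MP_887aa5_nt.Classification

open Pool.Agent.Lib.MP_887aa5_nt

/-- For every prime `p ≡ 3 (mod 4)`, `p ≥ 7`, and every `r ≥ 1`: the valuation of
`G_{r(p-1)}(p)` is `0` for even `r`; for odd `r` it is at least `3`, with equality exactly when
`p` divides neither `r (r + 1) (r + 2)` nor the numerator of `B_{p-3}` and it is not the case that
`p = 7` and `r ≡ 5 (mod 8)`. -/
theorem result (p : ℕ) (hp : p.Prime) (h3 : p % 4 = 3) (h7 : 7 ≤ p) (r : ℕ) (hr : 1 ≤ r) :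
    (Even r → v p (G (r * (p - 1)) p) = 0) ∧
    (Odd r → 3 ≤ v p (G (r * (p - 1)) p) ∧
      (v p (G (r * (p - 1)) p) = 3 ↔ ¬ p ∣ r * (r + 1) * (r + 2) ∧
        ¬ (p : ℤ) ∣ (bernoulli (p - 3)).num ∧ ¬ (p = 7 ∧ r % 8 = 5))) := by
  have : Fact p.Prime := ⟨hp⟩
  have := nosq h3
  refine ⟨fun he => ?_, fun ho => ?_⟩
  · have h := even_case h3 h7 hr he
    rw [← pow_one (p : GaussianInt), ← le_v] at h
    exact Order.lt_one_iff.1 (not_le.1 h)
  · obtain ⟨h1, h2⟩ := odd_case h3 h7 ho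
    rw [← le_v] at h1 h2
    refine ⟨h1, ?_⟩
    rw [← not_or, ← not_or, ← h2, not_le]
    constructor
    · intro h
      rw [h]
      exact_mod_cast (by norm_num : 3 < 4)
    · intro h
      exact le_antisymm (Order.le_of_lt_add_one (x := _) (y := 3) h) h1

end Pool.Agent.Results.MP_887aa5_nt.Classification
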