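import Mathlib

set_option autoImplicit false

namespace Pool.Agent.Results.MP_887aa5_nt.Counter

open Finset

/-- The Gaussian power sum `G_n(p) = ∑_{a,b ∈ {1,…,p-1}} (a + b i)^n`. -/
def G (n p : ℕ) : GaussianInt :=
  ∑ a ∈ Finset.Icc 1 (p - 1), ∑ b ∈ Finset.Icc 1 (p - 1), (⟨(a : ℤ), (b : ℤ)⟩ : GaussianInt) ^ n

/-- The valuation `v_p(x + y i) = min (v_p x) (v_p y)`, with `v_p 0 = ∞`. -/
noncomputable def v (p : ℕ) (z : GaussianInt) : ℕ∞ :=
  min (emultiplicity (p : ℤ) z.re) (emultiplicity (p : ℤ) z.im)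

/-- Ordinary power sums. -/
def S (p k : ℕ) : ℤ := ∑ a ∈ Finset.Icc 1 (p - 1), (a : ℤ) ^ k

lemma S_range (p k : ℕ) (hp : 0 < p) (hk : 0 < k) :
    S p k = ∑ a ∈ Finset.range p, (a : ℤ) ^ k := by
  unfold S
  obtain ⟨q, rfl⟩ : ∃ q, p = q + 1 := ⟨p - 1, by omega⟩
  rw [Finset.sum_range_succ', Nat.add_sub_cancel]
  have h0 : ((0 : ℕ) : ℤ) ^ k = 0 := by simp [hk.ne']
  rw [h0, add_zero, Finset.range_eq_Ico, Finset.sum_Ico_add' (fun a : ℕ => (a : ℤ) ^ k) 0 q 1]
  apply Finset.sum_congr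
  · ext x; simp [Finset.mem_Icc, Finset.mem_Ico]
  · intros; rfl

lemma dvd_S (p k : ℕ) [Fact p.Prime] (hk : 0 < k) (hk' : k < p - 1) : (p : ℤ) ∣ S p k := by
  have hp : 0 < p := (Fact.out : p.Prime).pos
  rw [S_range p k hp hk, ← ZMod.intCast_zmod_eq_zero_iff_dvd]
  push_cast
  have h := FiniteField.sum_pow_lt_card_sub_one (ZMod p) k (by rwa [ZMod.card])
  rw [← h]
  symm
  apply Finset.sum_bij (fun (x : ZMod p) _ => x.val)
  · intro x _; exact Finset.mem_range.mpr (ZMod.val_lt x)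
  · intro x _ y _ h; exact ZMod.val_injective p h
  · intro a ha
    exact ⟨(a : ZMod p), Finset.mem_univ _, ZMod.val_cast_of_lt (Finset.mem_range.mp ha)⟩
  · intro x _; simp

lemma S_reflect (p k : ℕ) : S p k = ∑ a ∈ Finset.Icc 1 (p - 1), ((p : ℤ) - a) ^ k := by
  unfold S
  apply Finset.sum_bij (fun a _ => p - a)
  · intro a ha; simp only [Finset.mem_Icc] at *; omega
  · intro a ha b hb h; simp only [Finset.mem_Icc] at *; omega
  · intro b hb
    refine ⟨p - b, ?_, ?_⟩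
    · simp only [Finset.mem_Icc] at *; omega
    · simp only [Finset.mem_Icc] at *; omega
  · intro a ha
    simp only [Finset.mem_Icc] at ha
    have : a ≤ p := by omega
    push_cast [this]
    ring

lemma sq_dvd_aux (p k : ℕ) (hk : Odd k) :
    (p : ℤ) ^ 2 ∣ 2 * S p k - p * k * S p (k - 1) := by
  have h1 : 2 * S p k - p * k * S p (k - 1) = ∑ a ∈ Finset.Icc 1 (p - 1),
      ((-(a : ℤ) + p) ^ k - (-(a : ℤ)) ^ (k - 1) * p * k - (-(a : ℤ)) ^ k) := by
    have he : Even (k - 1) := by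
      obtain ⟨j, rfl⟩ := hk; simp
    simp only [hk.neg_pow, he.neg_pow, Finset.sum_sub_distrib, Finset.sum_neg_distrib,
      ← Finset.sum_mul]
    have h2 : ∑ a ∈ Finset.Icc 1 (p - 1), (-(a : ℤ) + p) ^ k = S p k := by
      rw [S_reflect]; apply Finset.sum_congr rfl; intro a _; ring
    rw [h2]
    unfold S
    ring
  rw [h1]
  exact Finset.dvd_sum fun a _ => sq_dvd_add_pow_sub_sub _ _ _

lemma sq_dvd_S (p k : ℕ) [Fact p.Prime] (hp : p ≠ 2) (hk : Odd k) (h3 : 3 ≤ k) (hk' : k < p) :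
    (p : ℤ) ^ 2 ∣ S p k := by
  have h1 := sq_dvd_aux p k hk
  have h2 : (p : ℤ) ^ 2 ∣ p * k * S p (k - 1) := by
    obtain ⟨c, hc⟩ := dvd_S p (k - 1) (by omega) (by omega)
    exact ⟨k * c, by rw [hc]; ring⟩
  have h4 : (p : ℤ) ^ 2 ∣ 2 * S p k := by
    have := dvd_add h1 h2
    simpa using this
  have hcop : IsCoprime ((p : ℤ) ^ 2) 2 := by
    apply IsCoprime.pow_left
    have : Nat.Coprime p 2 := (Nat.coprime_primes Fact.out Nat.prime_two).mpr hp
    exact_mod_cast Nat.isCoprime_iff_coprime.mpr this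
  exact hcop.dvd_of_dvd_mul_left h4

/-- The imaginary unit. -/
def I : GaussianInt := ⟨0, 1⟩

lemma I_sq : I ^ 2 = -1 := by decide

lemma I_pow_even_im (k : ℕ) (hk : Even k) : (I ^ k).im = 0 := by
  obtain ⟨j, rfl⟩ := hk
  rw [← two_mul, pow_mul, I_sq]
  rcases Nat.even_or_odd j with h | h
  · rw [h.neg_one_pow]; rfl
  · rw [h.neg_one_pow]; rfl

lemma G_expand (n p : ℕ) :
    G n p = ∑ k ∈ Finset.range (n + 1),
      ((S p k * S p (n - k) * (n.choose k : ℤ) : ℤ) : GaussianInt) * I ^ (n - k) := by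
  unfold G S
  have h : ∀ a b : ℕ, (⟨(a : ℤ), (b : ℤ)⟩ : GaussianInt) = (a : GaussianInt) + (b : GaussianInt) * I := by
    intro a b; ext <;> simp [I]
  simp only [h, add_pow, mul_pow]
  push_cast
  simp only [Finset.sum_mul_sum]
  simp only [Finset.sum_mul]
  rw [Finset.sum_comm (s := Finset.range (n + 1))]
  apply Finset.sum_congr rfl
  intro a _
  rw [Finset.sum_comm (s := Finset.range (n + 1))]
  apply Finset.sum_congr rfl
  intro b _
  apply Finset.sum_congr rfl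
  intro k _
  ring

lemma G_re (n p : ℕ) (hn : n % 4 = 2) : (G n p).re = 0 := by
  have hI : I ^ n = -1 := by
    obtain ⟨j, rfl⟩ : ∃ j, n = 2 * (2 * j + 1) := ⟨n / 4, by omega⟩
    rw [pow_mul, I_sq]; exact Odd.neg_one_pow ⟨j, rfl⟩
  have h : ∀ a b : ℕ, (⟨(a : ℤ), (b : ℤ)⟩ : GaussianInt) ^ n
      = -star ((⟨(b : ℤ), (a : ℤ)⟩ : GaussianInt) ^ n) := by
    intro a b
    have h1 : (⟨(a : ℤ), (b : ℤ)⟩ : GaussianInt) = I * star (⟨(b : ℤ), (a : ℤ)⟩ : GaussianInt) := by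
      ext <;> simp [I]
    rw [h1, mul_pow, hI, star_pow]; ring
  have h2 : G n p = -star (G n p) := by
    conv_lhs => unfold G
    rw [Finset.sum_comm]
    simp only [G, star_sum, ← Finset.sum_neg_distrib]
    apply Finset.sum_congr rfl; intro a _
    apply Finset.sum_congr rfl; intro b _
    exact h b a
  have h3 := congrArg Zsqrtd.re h2
  simp only [Zsqrtd.re_neg, Zsqrtd.re_star] at h3
  omega

lemma im_sum {ι : Type} (s : Finset ι) (f : ι → GaussianInt) :
    (∑ i ∈ s, f i).im = ∑ i ∈ s, (f i).im := by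
  classical
  induction s using Finset.induction_on with
  | empty => simp
  | insert a s ha ih => simp [Finset.sum_insert ha, ih]

/-- If `p³` divides `S_{p-2}` then `p⁴` divides the imaginary part of `G_{p-1}(p)`. -/
lemma G_im (p : ℕ) [Fact p.Prime] (hp : p % 4 = 3) (h7 : 7 ≤ p) (hW : (p : ℤ) ^ 3 ∣ S p (p - 2)) :
    (p : ℤ) ^ 4 ∣ (G (p - 1) p).im := by
  rw [G_expand, im_sum]
  apply Finset.dvd_sum
  intro k hk
  have hk' : k ≤ p - 1 := by simpa [Nat.lt_succ_iff] using hk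
  simp only [Zsqrtd.im_mul, Zsqrtd.re_intCast, Zsqrtd.im_intCast, zero_mul, add_zero]
  rcases Nat.even_or_odd k with he | ho
  · rw [I_pow_even_im (p - 1 - k)]
    · simp
    · rw [Nat.even_iff] at *; omega
  · apply Dvd.dvd.mul_right
    apply Dvd.dvd.mul_right
    have h1 : (p : ℤ) ∣ S p 1 := dvd_S p 1 one_pos (by omega)
    have hko := Nat.odd_iff.mp ho
    by_cases hk1 : k = 1
    · subst hk1
      have : p - 1 - 1 = p - 2 := by omega
      rw [this, show (p : ℤ) ^ 4 = p * p ^ 3 by ring]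
      exact mul_dvd_mul h1 hW
    by_cases hk2 : k = p - 2
    · subst hk2
      have : p - 1 - (p - 2) = 1 := by omega
      rw [this, show (p : ℤ) ^ 4 = p ^ 3 * p by ring]
      exact mul_dvd_mul hW h1
    rw [show (p : ℤ) ^ 4 = p ^ 2 * p ^ 2 by ring]
    exact mul_dvd_mul (sq_dvd_S p k (by omega) ho (by omega) (by omega))
      (sq_dvd_S p (p - 1 - k) (by omega) (by rw [Nat.odd_iff]; omega) (by omega) (by omega))

lemma wolst_nat : (∑ a ∈ Finset.range 16843, a ^ 16841) % (16843 ^ 3) = 0 := by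
  decide +kernel

lemma wolst : ((16843 : ℕ) : ℤ) ^ 3 ∣ S 16843 (16843 - 2) := by
  rw [S_range _ _ (by norm_num) (by norm_num)]
  have h := Int.natCast_dvd_natCast.mpr (Nat.dvd_of_mod_eq_zero wolst_nat)
  rw [Nat.cast_pow, Nat.cast_sum] at h
  simp only [Nat.cast_pow] at h
  exact h

/-- There is a prime `p ≡ 3 (mod 4)`, `p ≥ 7`, for which already `r = 1` gives valuation at
least `4`. -/
theorem result : ∃ p r : ℕ, p.Prime ∧ p % 4 = 3 ∧ 7 ≤ p ∧ r = 1 ∧
    4 ≤ v p (G (r * (p - 1)) p) := by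
  have hp : Nat.Prime 16843 := by norm_num
  have : Fact (Nat.Prime 16843) := ⟨hp⟩
  refine ⟨16843, 1, hp, by norm_num, by norm_num, rfl, ?_⟩
  rw [one_mul]
  unfold v
  apply le_min
  · rw [G_re _ _ (by norm_num)]; simp
  · exact le_emultiplicity_of_pow_dvd (k := 4) (G_im 16843 (by norm_num) (by norm_num) wolst)

end Pool.Agent.Results.MP_887aa5_nt.Counter
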